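import Pool.Agent.Helper91.PU.Unif

/-!
Category in the Baire space: two comeager sets, the converse of the theorem of Kuratowski and Ulam,
and the bounding lemma.
-/

set_option autoImplicit false

namespace Pool.Agent.Helper81.UP

open Set Filter Topology PiNat Pool.Agent.Helper91.PU

theorem exists_cylinder {U : Set Bs} (hU : IsOpen U) {z : Bs} (hz : z ∈ U) :
    ∃ l : ℕ, cylinder z l ⊆ U := by
  obtain ⟨V, ⟨y, l, rfl⟩, hzV, hVU⟩ :=
    (isTopologicalBasis_cylinders fun _ : ℕ => ℕ).exists_subset_of_mem_open hz hU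
  refine ⟨l, ?_⟩
  rw [mem_cylinder_iff_eq.1 hzV]
  exact hVU

/-- infinitely many open conditions which can always be satisfied -/
theorem residual_frequently {P : ℕ → Bs → Prop} (ho : ∀ n, IsOpen {z | P n z})
    (hd : ∀ (N l : ℕ) (z : Bs), ∃ n, N ≤ n ∧ ∃ z', (∀ i < l, z' i = z i) ∧ P n z') :
    ∀ᶠ z in residual Bs, ∃ᶠ n in atTop, P n z := by
  have h1 : ∀ N : ℕ, ∀ᶠ z in residual Bs, ∃ n, N ≤ n ∧ P n z := by
    intro N
    have e : {z : Bs | ∃ n, N ≤ n ∧ P n z} = ⋃ n ∈ {n : ℕ | N ≤ n}, {z | P n z} := by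
      ext z
      simp
    refine residual_of_dense_open ?_ ?_
    · rw [e]
      exact isOpen_biUnion fun n _ => ho n
    · rw [dense_iff_inter_open]
      rintro U hU ⟨z, hz⟩
      obtain ⟨l, hl⟩ := exists_cylinder hU hz
      obtain ⟨n, hn, z', hz', hP⟩ := hd N l z
      exact ⟨z', hl (mem_cylinder_iff.2 hz'), n, hn, hP⟩
  have h2 : ∀ᶠ z in residual Bs, ∀ N : ℕ, ∃ n, N ≤ n ∧ P n z := by
    rw [eventually_countable_forall]
    exact h1
  filter_upwards [h2] with z hz
  rw [frequently_atTop]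
  exact fun N => by
    obtain ⟨n, hn, hP⟩ := hz N
    exact ⟨n, hn, hP⟩

theorem isOpen_coord (i k : ℕ) : IsOpen {z : Bs | z i = k} :=
  (isOpen_discrete ({k} : Set ℕ)).preimage (f := fun z : Bs => z i) (continuous_apply i)

/-- infinitely many long blocks on which `z` agrees with `s` -/
theorem residual_agree (s f : ℕ → ℕ) :
    ∀ᶠ z in residual Bs, ∃ᶠ n in atTop, ∀ i, n ≤ i → i < f n → z i = s i := by
  refine residual_frequently ?_ ?_
  · intro n
    have e : {z : Bs | ∀ i, n ≤ i → i < f n → z i = s i} =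
        ⋂ i ∈ {i : ℕ | n ≤ i ∧ i < f n}, {z : Bs | z i = s i} := by
      ext z
      simp only [mem_iInter]
      constructor
      · intro h i hi
        exact h i hi.1 hi.2
      · intro h i h1 h2
        exact h i ⟨h1, h2⟩
    rw [e]
    refine Set.Finite.isOpen_biInter ?_ fun i _ => isOpen_coord i (s i)
    exact (finite_lt_nat (f n)).subset fun i hi => hi.2
  · intro N l z
    refine ⟨max N l, le_max_left _ _, fun i => if i < l then z i else s i, ?_, ?_⟩
    · intro i hi
      exact if_pos hi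
    · intro i hi _
      exact if_neg (by have := le_max_right N l; omega)

/-- `z` is not dominated by `E` -/
theorem residual_exceed (E : ℕ → ℕ) :
    ∀ᶠ z in residual Bs, ∃ᶠ n in atTop, E n < (z : Bs) n := by
  refine residual_frequently (P := fun n z => E n < z n) ?_ ?_
  · intro n
    exact (isOpen_discrete {k : ℕ | E n < k}).preimage (f := fun z : Bs => z n)
      (continuous_apply n)
  · intro N l z
    refine ⟨max N l, le_max_left _ _, fun i => if i < l then z i else E i + 1, ?_, ?_⟩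
    · intro i hi
      exact if_pos hi
    · have h1 : ¬ max N l < l := not_lt.2 (le_max_right N l)
      simp only [if_neg h1]
      exact Nat.lt_succ_self _

/-- the converse of the theorem of Kuratowski and Ulam -/
theorem ku_conv {W : Set (Bs × Bs)} (hW : BaireMeasurableSet W)
    (h : ∀ᶠ x in residual Bs, ∀ᶠ z in residual Bs, (x, z) ∈ W) : W ∈ residual (Bs × Bs) := by
  obtain ⟨V, hV, hWV⟩ := hW.compl.residualEq_isOpen
  have hE : {p : Bs × Bs | p ∈ Wᶜ ↔ p ∈ V} ∈ residual (Bs × Bs) := by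
    filter_upwards [hWV] with p hp
    exact iff_of_eq hp
  have h1 := ku hE
  have h2 : ∀ᶠ x in residual Bs, ∀ z, (x, z) ∉ V := by
    filter_upwards [h1, h] with x hx1 hx2 z hz
    have hne : ∀ᶠ z in residual Bs, (x, z) ∉ V := by
      filter_upwards [hx1, hx2] with z hz1 hz2 hz3
      exact hz1.2 hz3 hz2
    have ho : IsOpen {z | (x, z) ∈ V} := hV.preimage (Continuous.prodMk_right x)
    obtain ⟨z', hz', hz''⟩ := (dense_of_mem_residual hne).inter_open_nonempty _ ho ⟨z, hz⟩
    exact hz'' hz'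
  have h3 : V = ∅ := by
    rw [eq_empty_iff_forall_notMem]
    rintro ⟨x, z⟩ hxz
    have ho : IsOpen {x | (x, z) ∈ V} := hV.preimage (Continuous.prodMk_left z)
    obtain ⟨x', hx', hx''⟩ := (dense_of_mem_residual h2).inter_open_nonempty _ ho ⟨x, hxz⟩
    exact hx'' z hx'
  filter_upwards [hE] with p hp
  by_contra hpW
  have := hp.1 hpW
  rw [h3] at this
  exact this

/-- an enumeration of a countable dense set -/
noncomputable def qd (a : ℕ) : Bs := TopologicalSpace.denseSeq Bs a

theorem qd_dense (z : Bs) (l : ℕ) : ∃ a, ∀ i < l, qd a i = z i := by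
  obtain ⟨_, hy, ⟨a, rfl⟩⟩ := (TopologicalSpace.denseRange_denseSeq Bs).inter_open_nonempty
    (cylinder z l) (isOpen_cylinder _ z l) ⟨z, self_mem_cylinder z l⟩
  exact ⟨a, mem_cylinder_iff.1 hy⟩

/-- the points `w` with values at most `b` from `m` on that start with `qd a` up to `l`, followed
by zeros -/
def Tst (a l m b : ℕ) : Set Bs :=
  {w | (∀ i < l, w i = qd a i) ∧ (∀ i, l ≤ i → i < m → w i = 0) ∧ ∀ i, m ≤ i → w i ≤ b}

/-- the parameters over which `V j` meets `Tst a l m b`; `c` codes `(j, a, l)` -/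
def Bd (V : ℕ → Set (Bs × Bs)) (c m b : ℕ) : Set Bs :=
  {x | ∃ w ∈ Tst c.unpair.2.unpair.1 c.unpair.2.unpair.2 m b, (x, w) ∈ V c.unpair.1}

theorem Bd_open {V : ℕ → Set (Bs × Bs)} (hV : ∀ j, IsOpen (V j)) (c m b : ℕ) :
    IsOpen (Bd V c m b) := by
  have e : Bd V c m b = ⋃ w ∈ Tst c.unpair.2.unpair.1 c.unpair.2.unpair.2 m b,
      {x | (x, w) ∈ V c.unpair.1} := by
    ext x
    simp only [Bd, mem_iUnion, exists_prop]
    exact Iff.rfl
  rw [e]
  exact isOpen_biUnion fun w _ => (hV _).preimage (Continuous.prodMk_left w)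

/-- the bounding function -/
noncomputable def gb (V : ℕ → Set (Bs × Bs)) (x : Bs) (m : ℕ) : ℕ :=
  ∑ c ∈ Finset.range (m + 1), sInf {b | x ∈ Bd V c m b}

theorem gb_measurable {V : ℕ → Set (Bs × Bs)} (hV : ∀ j, IsOpen (V j)) : Measurable (gb V) := by
  rw [measurable_pi_iff]
  intro m
  exact Finset.measurable_sum _ fun c _ => measurable_sInf_nat fun b => (Bd_open hV c m b).measurableSet

/-- The bounding lemma: `V j` are open sets with dense sections over `x`, and no `z ≤ e` belongs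
to the section of every `V j`; then the monotone function `e` is eventually below `gb V x`. -/
theorem bound {V : ℕ → Set (Bs × Bs)} (hV : ∀ j, IsOpen (V j)) {x : Bs}
    (hd : ∀ j, Dense {z | (x, z) ∈ V j}) {e : ℕ → ℕ} (he : Monotone e)
    (h : ∀ z : Bs, (∀ n, z n ≤ e n) → ∃ j, (x, z) ∉ V j) : ∀ᶠ m in atTop, e m < gb V x m := by
  -- the compact set of the functions below `e`
  have hcl : IsClosed {z : Bs | ∀ n, z n ≤ e n} := by
    have e1 : {z : Bs | ∀ n, z n ≤ e n} = ⋂ n, {z : Bs | z n ≤ e n} := by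
      ext z
      simp
    rw [e1]
    refine isClosed_iInter fun n => ?_
    exact (isClosed_discrete {k : ℕ | k ≤ e n}).preimage (f := fun z : Bs => z n)
      (continuous_apply n)
  have : PolishSpace {z : Bs | ∀ n, z n ≤ e n} := hcl.polishSpace
  have : Nonempty {z : Bs | ∀ n, z n ≤ e n} := ⟨⟨fun _ => 0, fun n => Nat.zero_le _⟩⟩
  have hc : ∀ j, IsClosed {z : {z : Bs | ∀ n, z n ≤ e n} | (x, (z : Bs)) ∉ V j} := by
    intro j
    have ho : IsOpen {z : {z : Bs | ∀ n, z n ≤ e n} | (x, (z : Bs)) ∈ V j} :=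
      (hV j).preimage ((Continuous.prodMk_right x).comp continuous_subtype_val)
    exact ho.isClosed_compl
  have hU : (⋃ j, {z : {z : Bs | ∀ n, z n ≤ e n} | (x, (z : Bs)) ∉ V j}) = univ := by
    rw [eq_univ_iff_forall]
    rintro ⟨z, hz⟩
    obtain ⟨j, hj⟩ := h z hz
    exact mem_iUnion.2 ⟨j, hj⟩
  obtain ⟨j, ⟨⟨z₀, hz₀⟩, hzi⟩⟩ := nonempty_interior_of_iUnion_of_closed hc hU
  obtain ⟨O, hO, hOi⟩ := isOpen_induced_iff.1 (isOpen_interior
    (s := {z : {z : Bs | ∀ n, z n ≤ e n} | (x, (z : Bs)) ∉ V j}))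
  have hz₀O : z₀ ∈ O := by
    have : (⟨z₀, hz₀⟩ : {z : Bs | ∀ n, z n ≤ e n}) ∈ (Subtype.val ⁻¹' O) := by
      rw [hOi]
      exact hzi
    exact this
  obtain ⟨l, hl⟩ := exists_cylinder hO hz₀O
  obtain ⟨a, ha⟩ := qd_dense z₀ l
  -- the code
  set c := Nat.pair j (Nat.pair a l) with hcdef
  have hc1 : c.unpair.1 = j := by rw [hcdef, Nat.unpair_pair]
  have hc2 : c.unpair.2.unpair.1 = a := by rw [hcdef, Nat.unpair_pair, Nat.unpair_pair]
  have hc3 : c.unpair.2.unpair.2 = l := by rw [hcdef, Nat.unpair_pair, Nat.unpair_pair]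
  rw [eventually_atTop]
  refine ⟨max c l, fun m hm => ?_⟩
  have hcm : c ≤ m := le_trans (le_max_left _ _) hm
  have hlm : l ≤ m := le_trans (le_max_right _ _) hm
  -- the set of bounds is not empty
  have hne : {b | x ∈ Bd V c m b}.Nonempty := by
    obtain ⟨z, hzc, hzV⟩ := (hd j).inter_open_nonempty
      (cylinder (fun i => if i < l then qd a i else 0 : Bs) m) (isOpen_cylinder _ _ _)
      ⟨_, self_mem_cylinder _ _⟩
    have ho : IsOpen {z : Bs | (x, z) ∈ V j} := (hV j).preimage (Continuous.prodMk_right x)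
    obtain ⟨l', hl'⟩ := exists_cylinder ho hzV
    refine ⟨∑ i ∈ Finset.range (max l' m), z i, ?_⟩
    refine ⟨fun i => if i < max l' m then z i else 0, ⟨?_, ?_, ?_⟩, ?_⟩
    · intro i hi
      rw [hc3] at hi
      have h1 : i < max l' m := lt_of_lt_of_le (lt_of_lt_of_le hi hlm) (le_max_right _ _)
      have h2 := mem_cylinder_iff.1 hzc i (lt_of_lt_of_le hi hlm)
      beta_reduce
      rw [if_pos h1, h2, if_pos hi, hc2]
    · intro i hi hi'
      rw [hc3] at hi
      have h1 : i < max l' m := lt_of_lt_of_le hi' (le_max_right _ _)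
      have h2 := mem_cylinder_iff.1 hzc i hi'
      beta_reduce
      rw [if_pos h1, h2, if_neg (not_lt.2 hi)]
    · intro i _
      beta_reduce
      by_cases h1 : i < max l' m
      · rw [if_pos h1]
        exact Finset.single_le_sum (f := fun i => z i) (fun _ _ => Nat.zero_le _)
          (Finset.mem_range.2 h1)
      · rw [if_neg h1]
        exact Nat.zero_le _
    · rw [hc1]
      apply hl'
      rw [mem_cylinder_iff]
      intro i hi
      exact if_pos (lt_of_lt_of_le hi (le_max_left _ _))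
  have hmem : sInf {b | x ∈ Bd V c m b} ∈ {b | x ∈ Bd V c m b} := Nat.sInf_mem hne
  obtain ⟨w, ⟨hw1, hw2, hw3⟩, hwV⟩ := hmem
  rw [hc1] at hwV
  rw [hc2, hc3] at hw1
  rw [hc3] at hw2
  have hlt : e m < sInf {b | x ∈ Bd V c m b} := by
    by_contra hle
    rw [not_lt] at hle
    have hwe : ∀ n, w n ≤ e n := by
      intro n
      rcases lt_or_ge n l with h1 | h1
      · rw [hw1 n h1, ha n h1]
        exact hz₀ n
      · rcases lt_or_ge n m with h2 | h2
        · rw [hw2 n h1 h2]
          exact Nat.zero_le _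
        · exact (hw3 n h2).trans (hle.trans (he h2))
    have hwO : w ∈ O := by
      apply hl
      rw [mem_cylinder_iff]
      intro i hi
      rw [hw1 i hi, ha i hi]
    have h3 : (⟨w, hwe⟩ : {z : Bs | ∀ n, z n ≤ e n}) ∈ (Subtype.val ⁻¹' O) := hwO
    rw [hOi] at h3
    exact interior_subset h3 hwV
  refine lt_of_lt_of_le hlt ?_
  unfold gb
  exact Finset.single_le_sum (f := fun c => sInf {b | x ∈ Bd V c m b}) (fun _ _ => Nat.zero_le _)
    (Finset.mem_range.2 (Nat.lt_succ_of_le hcm))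

end Pool.Agent.Helper81.UP
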