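import Pool.Agent.Helper81.UP.Cat

/-!
Borel capturing of projective relations with small sections.
-/

set_option autoImplicit false

namespace Pool.Agent.Helper81.UP

open Set Filter Topology Pool.Agent.Helper91.PU

/-- Every point of `S` is, for all large `n`, in one of the sets `U i (s i)` over `x` with
`n ≤ i < f n`. -/
def Capt (U : ℕ → ℕ → Set (Bs × Bs)) (x : Bs) (S : Set Bs) (s f : ℕ → ℕ) : Prop :=
  ∀ y ∈ S, ∀ᶠ n in atTop, ∃ i, n ≤ i ∧ i < f n ∧ (x, y) ∈ U i (s i)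

theorem meas_ev {Z : Type} [MeasurableSpace Z] {P : ℕ → Set Z} (hP : ∀ n, MeasurableSet (P n)) :
    MeasurableSet {q : Z | ∀ᶠ n in atTop, q ∈ P n} := by
  have e : {q : Z | ∀ᶠ n in atTop, q ∈ P n} = ⋃ N : ℕ, ⋂ n ∈ {n : ℕ | N ≤ n}, P n := by
    ext q
    simp only [mem_iUnion, mem_iInter]
    exact eventually_atTop
  rw [e]
  exact MeasurableSet.iUnion fun N => MeasurableSet.biInter (to_countable _) fun n _ => hP n

theorem meas_hit {U : ℕ → ℕ → Set (Bs × Bs)} (hU : ∀ i k, MeasurableSet (U i k)) {Z : Type}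
    [MeasurableSpace Z] {a b c e : Z → Bs} (ha : Measurable a) (hb : Measurable b)
    (hc : Measurable c) (he : Measurable e) (n : ℕ) :
    MeasurableSet {q : Z | ∃ i, n ≤ i ∧ i < e q n ∧ (a q, b q) ∈ U i (c q i)} := by
  have e1 : {q : Z | ∃ i, n ≤ i ∧ i < e q n ∧ (a q, b q) ∈ U i (c q i)} =
      ⋃ i ∈ {i : ℕ | n ≤ i}, ({q | i < e q n} ∩
        ⋃ k : ℕ, ({q | c q i = k} ∩ (fun q => (a q, b q)) ⁻¹' U i k)) := by
    ext q
    simp only [mem_iUnion, mem_inter_iff, exists_prop]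
    constructor
    · rintro ⟨i, h1, h2, h3⟩
      exact ⟨i, h1, h2, c q i, rfl, h3⟩
    · rintro ⟨i, h1, h2, k, h3, h4⟩
      refine ⟨i, h1, h2, ?_⟩
      have h5 : c q i = k := h3
      rw [h5]
      exact h4
  rw [e1]
  refine MeasurableSet.biUnion (to_countable _) fun i _ => MeasurableSet.inter ?_
    (MeasurableSet.iUnion fun k => MeasurableSet.inter ?_ ?_)
  · have h1 : Measurable fun q => e q n := (measurable_pi_apply n).comp he
    exact h1 (measurableSet_Ioi (a := i))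
  · have h1 : Measurable fun q => c q i := (measurable_pi_apply i).comp hc
    exact h1 (measurableSet_singleton k)
  · exact (ha.prodMk hb) (hU i k)

theorem borel4 : BorelSpace (((Bs × Bs) × Bs) × Bs) := by
  have h1 : BorelSpace ((Bs × Bs) × Bs) := inferInstance
  have h2 : SecondCountableTopology ((Bs × Bs) × Bs) := inferInstance
  have h3 : SecondCountableTopologyEither ((Bs × Bs) × Bs) Bs := inferInstance
  exact Prod.borelSpace

theorem proj_capt {U : ℕ → ℕ → Set (Bs × Bs)} (hU : ∀ i k, MeasurableSet (U i k))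
    {R : Set (Bs × Bs)} (hR : Proj (Bs × Bs) R) :
    Proj (Bs × Bs) {p : Bs × Bs | ∃ E : Bs, Capt U p.1 (sec R p.1) p.2 E} := by
  have e1 : {p : Bs × Bs | ∃ E : Bs, Capt U p.1 (sec R p.1) p.2 E} =
      Prod.fst '' ({q : (Bs × Bs) × Bs | Capt U q.1.1 (sec R q.1.1) q.1.2 q.2}) := by
    ext p
    constructor
    · rintro ⟨E, hE⟩
      exact ⟨(p, E), hE, rfl⟩
    · rintro ⟨⟨p', E⟩, hE, rfl⟩
      exact ⟨E, hE⟩
  rw [e1]
  refine Proj.proj ?_
  have e2 : {q : (Bs × Bs) × Bs | Capt U q.1.1 (sec R q.1.1) q.1.2 q.2} =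
      (Prod.fst '' {r : ((Bs × Bs) × Bs) × Bs | (r.1.1.1, r.2) ∈ R ∧
        ¬ ∀ᶠ n in atTop, ∃ i, n ≤ i ∧ i < r.1.2 n ∧ (r.1.1.1, r.2) ∈ U i (r.1.1.2 i)})ᶜ := by
    ext q
    constructor
    · rintro h ⟨⟨q', y⟩, ⟨h1, h2⟩, rfl⟩
      exact h2 (h y h1)
    · intro h y hy
      by_contra hno
      exact h ⟨(q, y), ⟨hy, hno⟩, rfl⟩
  rw [e2]
  refine (Proj.proj ?_).compl
  have hB : BorelSpace (((Bs × Bs) × Bs) × Bs) := borel4
  have h1 : Proj (((Bs × Bs) × Bs) × Bs)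
      ((fun r : ((Bs × Bs) × Bs) × Bs => (r.1.1.1, r.2)) ⁻¹' R) :=
    hR.preimage' ((measurable_fst.comp (measurable_fst.comp measurable_fst)).prodMk measurable_snd)
  have h2 : ∀ n : ℕ, MeasurableSet {r : ((Bs × Bs) × Bs) × Bs |
      ∃ i, n ≤ i ∧ i < r.1.2 n ∧ (r.1.1.1, r.2) ∈ U i (r.1.1.2 i)} := fun n =>
    meas_hit hU (a := fun r : ((Bs × Bs) × Bs) × Bs => r.1.1.1)
      (b := fun r => r.2) (c := fun r => r.1.1.2) (e := fun r => r.1.2)
      (measurable_fst.comp (measurable_fst.comp measurable_fst)) measurable_snd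
      (measurable_snd.comp (measurable_fst.comp measurable_fst))
      (measurable_snd.comp measurable_fst) n
  have h3 : MeasurableSet {r : ((Bs × Bs) × Bs) × Bs | ∀ᶠ n in atTop,
      ∃ i, n ≤ i ∧ i < r.1.2 n ∧ (r.1.1.1, r.2) ∈ U i (r.1.1.2 i)} := meas_ev h2
  exact h1.inter (Proj.of_measurable h3.compl)

/-- if some sequence captures `S` then comeager many do -/
theorem capt_comeager {U : ℕ → ℕ → Set (Bs × Bs)} {x : Bs} {S : Set Bs} {s f : ℕ → ℕ}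
    (h : Capt U x S s f) : ∀ᶠ z in residual Bs, ∃ E : Bs, Capt U x S z E := by
  filter_upwards [residual_agree s f] with z hz
  rw [frequently_atTop] at hz
  choose a ha1 ha2 using hz
  refine ⟨fun N => f (a N), fun y hy => ?_⟩
  obtain ⟨N₀, hN₀⟩ := eventually_atTop.1 (h y hy)
  rw [eventually_atTop]
  refine ⟨N₀, fun N hN => ?_⟩
  obtain ⟨i, h1, h2, h3⟩ := hN₀ (a N) (hN.trans (ha1 N))
  refine ⟨i, (ha1 N).trans h1, h2, ?_⟩
  rw [ha2 N i h1 h2]
  exact h3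

/-- the relation of avoiding -/
def Nn (U : ℕ → ℕ → Set (Bs × Bs)) (R : Set (Bs × Bs)) (s : ℕ → ℕ) : Set (Bs × Bs) :=
  {p | ∃ y, (p.1, y) ∈ R ∧ (∀ n, ∃ i, n ≤ i ∧ (p.1, y) ∈ U i (s i)) ∧
    ∀ n i, n ≤ i → i < p.2 n → (p.1, y) ∉ U i (s i)}

theorem proj_Nn {U : ℕ → ℕ → Set (Bs × Bs)} (hU : ∀ i k, MeasurableSet (U i k))
    {R : Set (Bs × Bs)} (hR : Proj (Bs × Bs) R) (s : ℕ → ℕ) : Proj (Bs × Bs) (Nn U R s) := by
  have e1 : Nn U R s = Prod.fst '' {q : (Bs × Bs) × Bs | (q.1.1, q.2) ∈ R ∧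
      ((∀ n, ∃ i, n ≤ i ∧ (q.1.1, q.2) ∈ U i (s i)) ∧
        ∀ n i, n ≤ i → i < q.1.2 n → (q.1.1, q.2) ∉ U i (s i))} := by
    ext p
    constructor
    · rintro ⟨y, hy⟩
      exact ⟨(p, y), hy, rfl⟩
    · rintro ⟨⟨p', y⟩, hy, rfl⟩
      exact ⟨y, hy⟩
  rw [e1]
  refine Proj.proj ?_
  have h1 : Proj ((Bs × Bs) × Bs) ((fun q : (Bs × Bs) × Bs => (q.1.1, q.2)) ⁻¹' R) :=
    hR.preimage' (by fun_prop)
  refine h1.inter (Proj.of_measurable ?_)
  have h2 : Measurable fun q : (Bs × Bs) × Bs => (q.1.1, q.2) := by fun_prop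
  have e2 : {q : (Bs × Bs) × Bs | (∀ n, ∃ i, n ≤ i ∧ (q.1.1, q.2) ∈ U i (s i)) ∧
        ∀ n i, n ≤ i → i < q.1.2 n → (q.1.1, q.2) ∉ U i (s i)} =
      (⋂ n, ⋃ i ∈ {i : ℕ | n ≤ i}, (fun q : (Bs × Bs) × Bs => (q.1.1, q.2)) ⁻¹' (U i (s i))) ∩
        ⋂ n, ⋂ i ∈ {i : ℕ | n ≤ i}, ({q | i < q.1.2 n} ∩
          (fun q : (Bs × Bs) × Bs => (q.1.1, q.2)) ⁻¹' (U i (s i)))ᶜ := by
    ext q
    simp only [mem_inter_iff, mem_iInter, mem_iUnion, exists_prop, mem_compl_iff]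
    constructor
    · rintro ⟨h3, h4⟩
      exact ⟨h3, fun n i hi h5 => h4 n i hi h5.1 h5.2⟩
    · rintro ⟨h3, h4⟩
      exact ⟨h3, fun n i hi h5 h6 => h4 n i hi ⟨h5, h6⟩⟩
  have e3 : {q : (Bs × Bs) × Bs | (∀ n, ∃ i, n ≤ i ∧ (q.1.1, q.2) ∈ U i (s i)) ∧
        ∀ n i, n ≤ i → i < q.1.2 n → (q.1.1, q.2) ∉ U i (s i)} =
      {q : (Bs × Bs) × Bs | ((∀ n, ∃ i, n ≤ i ∧ (q.1.1, q.2) ∈ U i (s i)) ∧
        ∀ n i, n ≤ i → i < q.1.2 n → (q.1.1, q.2) ∉ U i (s i))} := rfl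
  have h3 : MeasurableSet {q : (Bs × Bs) × Bs | (∀ n, ∃ i, n ≤ i ∧ (q.1.1, q.2) ∈ U i (s i)) ∧
        ∀ n i, n ≤ i → i < q.1.2 n → (q.1.1, q.2) ∉ U i (s i)} := by
    rw [e2]
    refine MeasurableSet.inter ?_ ?_
    · exact MeasurableSet.iInter fun n => MeasurableSet.biUnion (to_countable _)
        fun i _ => h2 (hU i (s i))
    · refine MeasurableSet.iInter fun n => MeasurableSet.biInter (to_countable _)
        fun i _ => MeasurableSet.compl (MeasurableSet.inter ?_ (h2 (hU i (s i))))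
      have h4 : Measurable fun q : (Bs × Bs) × Bs => q.1.2 n :=
        (measurable_pi_apply n).comp (measurable_snd.comp measurable_fst)
      exact h4 (measurableSet_Ioi (a := i))
  exact h3

/-- the sections of `Nn` are meager -/
theorem Nn_meager {U : ℕ → ℕ → Set (Bs × Bs)} {R : Set (Bs × Bs)} {s E : ℕ → ℕ} {x : Bs}
    (h : Capt U x (sec R x) s E) : ∀ᶠ z in residual Bs, (x, z) ∈ (Nn U R s)ᶜ := by
  filter_upwards [residual_exceed E] with z hz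
  rintro ⟨y, hy, _, h2⟩
  obtain ⟨n, h3, i, h4, h5, h6⟩ := (hz.and_eventually (h y hy)).exists
  exact h2 n i h4 (h5.trans h3) h6

theorem exists_open {A : Set (Bs × Bs)} (h : A ∈ residual (Bs × Bs)) :
    ∃ V : ℕ → Set (Bs × Bs), (∀ j, IsOpen (V j)) ∧ (⋂ j, V j) ⊆ A ∧
      ∀ᶠ x in residual Bs, ∀ j, Dense {z | (x, z) ∈ V j} := by
  obtain ⟨t, htA, htG, htd⟩ := mem_residual.1 h
  obtain ⟨V, hV, rfl⟩ := htG.eq_iInter_nat
  refine ⟨V, hV, htA, ?_⟩
  rw [eventually_countable_forall]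
  intro j
  exact ku_open (hV j) (htd.mono (iInter_subset V j))

open Classical in
/-- capturing along a good parameter -/
theorem capt_of_good {U : ℕ → ℕ → Set (Bs × Bs)} {R : Set (Bs × Bs)} {s E : ℕ → ℕ} {x : Bs}
    (h : Capt U x (sec R x) s E) {V : ℕ → Set (Bs × Bs)} (hV : ∀ j, IsOpen (V j))
    (hVN : (⋂ j, V j) ⊆ (Nn U R s)ᶜ) (hd : ∀ j, Dense {z | (x, z) ∈ V j}) :
    Capt U x (sec R x) s (gb V x) := by
  intro y hy
  have h1 : ∀ n, ∃ i, n ≤ i ∧ (x, y) ∈ U i (s i) := by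
    intro n
    obtain ⟨N₀, hN₀⟩ := eventually_atTop.1 (h y hy)
    obtain ⟨i, h2, _, h3⟩ := hN₀ (max n N₀) (le_max_right _ _)
    exact ⟨i, (le_max_left _ _).trans h2, h3⟩
  have hspec : ∀ n, n ≤ Nat.find (h1 n) ∧ (x, y) ∈ U (Nat.find (h1 n)) (s (Nat.find (h1 n))) :=
    fun n => Nat.find_spec (h1 n)
  have hmono : Monotone fun n => Nat.find (h1 n) := by
    intro n m hnm
    exact Nat.find_min' _ ⟨hnm.trans (hspec m).1, (hspec m).2⟩
  have hb := bound hV hd hmono (fun z hz => by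
    by_contra hno
    push Not at hno
    refine hVN (mem_iInter.2 hno) ⟨y, hy, h1, ?_⟩
    intro n i hni hiz hmem
    have h2 : Nat.find (h1 n) ≤ i := Nat.find_min' _ ⟨hni, hmem⟩
    exact absurd (h2.trans_lt hiz) (not_lt.2 (hz n)))
  filter_upwards [hb] with m hm
  exact ⟨Nat.find (h1 m), (hspec m).1, hm, (hspec m).2⟩

theorem meas_diag {g : Bs → ℕ → ℕ} (hg : Measurable g) {k : Bs → ℕ} (hk : Measurable k) :
    Measurable fun x => g x (k x) := by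
  have h1 : Measurable fun p : Bs × ℕ => g p.1 p.2 := by
    apply measurable_from_prod_countable_left
    intro n
    exact (measurable_pi_apply n).comp hg
  exact h1.comp (measurable_id.prodMk hk)

/-- Borel capturing. -/
theorem capt_main (hPB : PB) {U : ℕ → ℕ → Set (Bs × Bs)} (hU : ∀ i k, MeasurableSet (U i k))
    {R : Set (Bs × Bs)} (hR : Proj (Bs × Bs) R)
    (h : ∀ᶠ x in residual Bs, ∃ s f : ℕ → ℕ, Capt U x (sec R x) s f) :
    ∃ s : ℕ → ℕ, ∃ f : Bs → ℕ → ℕ, Measurable f ∧ ∀ᶠ x in residual Bs,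
      Capt U x (sec R x) s (f x) ∧ ((sec R x).Nonempty →
        ∃ y ∈ sec R x, ∀ n, ∃ i, n ≤ i ∧ i < f x n ∧ (x, y) ∈ U i (s i)) := by
  -- a fixed sequence
  have hP : {p : Bs × Bs | ∃ E : Bs, Capt U p.1 (sec R p.1) p.2 E} ∈ residual (Bs × Bs) := by
    refine ku_conv (pb2 hPB (proj_capt hU hR)) ?_
    filter_upwards [h] with x hx
    obtain ⟨s, f, hsf⟩ := hx
    exact capt_comeager hsf
  obtain ⟨s, hs⟩ := (dense_of_mem_residual (ku' hP)).nonempty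
  have hs' : ∀ᶠ x in residual Bs, ∃ E : Bs, Capt U x (sec R x) s E := hs
  -- the bounding function
  have hN : (Nn U R s)ᶜ ∈ residual (Bs × Bs) := by
    refine ku_conv (pb2 hPB (proj_Nn hU hR s)).compl ?_
    filter_upwards [hs'] with x hx
    obtain ⟨E, hE⟩ := hx
    exact Nn_meager hE
  obtain ⟨V, hV, hVN, hVd⟩ := exists_open hN
  have hg : Measurable (gb V) := gb_measurable hV
  have hA : ∀ m : ℕ, Proj Bs {x | ∃ y, (x, y) ∈ R ∧ ∀ n, m ≤ n → ∃ i, n ≤ i ∧ i < gb V x n ∧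
      (x, y) ∈ U i (s i)} := by
    intro m
    have e : {x | ∃ y, (x, y) ∈ R ∧ ∀ n, m ≤ n → ∃ i, n ≤ i ∧ i < gb V x n ∧
        (x, y) ∈ U i (s i)} = Prod.fst '' (R ∩ ⋂ n ∈ {n : ℕ | m ≤ n},
          {p : Bs × Bs | ∃ i, n ≤ i ∧ i < gb V p.1 n ∧ (p.1, p.2) ∈ U i (s i)}) := by
      ext x
      constructor
      · rintro ⟨y, h1, h2⟩
        refine ⟨(x, y), ⟨h1, ?_⟩, rfl⟩
        simp only [mem_iInter]
        exact h2
      · rintro ⟨⟨x', y⟩, ⟨h1, h2⟩, rfl⟩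
        simp only [mem_iInter] at h2
        exact ⟨y, h1, h2⟩
    rw [e]
    refine Proj.proj (hR.inter (Proj.of_measurable ?_))
    refine MeasurableSet.biInter (to_countable _) fun n _ => ?_
    exact meas_hit hU (a := fun p : Bs × Bs => p.1) (b := fun p => p.2) (c := fun _ => s)
      (e := fun p => gb V p.1) measurable_fst measurable_snd measurable_const
      (hg.comp measurable_fst) n
  choose O hO hOA using fun m => (hPB _ (hA m)).residualEq_isOpen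
  have hOe : ∀ᶠ x in residual Bs, ∀ m, (∃ y, (x, y) ∈ R ∧ ∀ n, m ≤ n → ∃ i, n ≤ i ∧
      i < gb V x n ∧ (x, y) ∈ U i (s i)) ↔ x ∈ O m := by
    rw [eventually_countable_forall]
    intro m
    filter_upwards [hOA m] with x hx
    exact iff_of_eq hx
  have hm : Measurable fun x => sInf {m | x ∈ O m} :=
    measurable_sInf_nat fun m => (hO m).measurableSet
  refine ⟨s, fun x n => gb V x (max n (sInf {m | x ∈ O m})), ?_, ?_⟩
  · rw [measurable_pi_iff]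
    intro n
    exact meas_diag hg (measurable_const.max hm)
  · filter_upwards [hs', hVd, hOe] with x hx1 hx2 hx3
    obtain ⟨E, hE⟩ := hx1
    have hcap := capt_of_good hE hV hVN hx2
    refine ⟨?_, ?_⟩
    · intro y hy
      filter_upwards [hcap y hy, eventually_ge_atTop (sInf {m | x ∈ O m})] with n hn1 hn2
      rw [max_eq_left hn2]
      exact hn1
    · rintro ⟨y, hy⟩
      obtain ⟨N₀, hN₀⟩ := eventually_atTop.1 (hcap y hy)
      have hne : ({m | x ∈ O m} : Set ℕ).Nonempty := ⟨N₀, (hx3 N₀).1 ⟨y, hy, hN₀⟩⟩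
      have hmem : sInf {m | x ∈ O m} ∈ {m | x ∈ O m} := Nat.sInf_mem hne
      obtain ⟨y', hy', h2⟩ := (hx3 _).2 hmem
      refine ⟨y', hy', fun n => ?_⟩
      obtain ⟨i, h3, h4, h5⟩ := h2 (max n (sInf {m | x ∈ O m})) (le_max_right _ _)
      exact ⟨i, (le_max_left _ _).trans h3, h4, h5⟩

/-- countable sets are captured -/
theorem capt_countable {U : ℕ → ℕ → Set (Bs × Bs)} {x : Bs} {S : Set Bs} (hS : S.Countable)
    (h : ∀ y ∈ S, ∀ i, ∃ k, (x, y) ∈ U i k) : ∃ s f : ℕ → ℕ, Capt U x S s f := by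
  rcases S.eq_empty_or_nonempty with rfl | hne
  · exact ⟨fun _ => 0, fun _ => 0, fun y hy => absurd hy (notMem_empty y)⟩
  obtain ⟨y, rfl⟩ := hS.exists_eq_range hne
  choose k hk using fun (j i : ℕ) => h (y j) ⟨j, rfl⟩ i
  refine ⟨fun i => k i.unpair.1 i, fun n => ∑ j ∈ Finset.range (n + 1), (Nat.pair j n + 1), ?_⟩
  rintro _ ⟨j, rfl⟩
  filter_upwards [eventually_ge_atTop j] with n hn
  refine ⟨Nat.pair j n, Nat.right_le_pair j n, ?_, ?_⟩
  · have h1 : Nat.pair j n + 1 ≤ ∑ j ∈ Finset.range (n + 1), (Nat.pair j n + 1) :=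
      Finset.single_le_sum (f := fun j => Nat.pair j n + 1) (fun _ _ => Nat.zero_le _)
        (Finset.mem_range.2 (Nat.lt_succ_of_le hn))
    exact h1
  · rw [Nat.unpair_pair]
    exact hk j (Nat.pair j n)

theorem capt_final (hPB : PB) {U : ℕ → ℕ → Set (Bs × Bs)} (hU : ∀ i k, MeasurableSet (U i k))
    {R : Set (Bs × Bs)} (hR : Proj (Bs × Bs) R)
    (h : ∀ᶠ x in residual Bs, (∃ s f : ℕ → ℕ, Capt U x (sec R x) s f) ∨
      ((sec R x).Countable ∧ ∀ y ∈ sec R x, ∀ i, ∃ k, (x, y) ∈ U i k)) :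
    ∃ s : ℕ → ℕ, ∃ f : Bs → ℕ → ℕ, Measurable f ∧ ∀ᶠ x in residual Bs,
      Capt U x (sec R x) s (f x) ∧ ((sec R x).Nonempty →
        ∃ y ∈ sec R x, ∀ n, ∃ i, n ≤ i ∧ i < f x n ∧ (x, y) ∈ U i (s i)) := by
  refine capt_main hPB hU hR ?_
  filter_upwards [h] with x hx
  rcases hx with hx | ⟨h1, h2⟩
  · exact hx
  · exact capt_countable h1 h2

end Pool.Agent.Helper81.UP
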